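import Pool.Agent.Helper98_E.Basic

/-!
# MP_7d2497_an: module LOWB
-/

namespace Pool.Agent.H78E.H98

open MeasureTheory Filter Topology Complex

noncomputable section

/-- the exponential bound `1 + e u ≤ K exp (κ u)` -/
theorem lin_le_exp {e κ u : ℝ} (he : 0 ≤ e) (hκ : 0 < κ) (hu : 0 ≤ u) :
    1 + e * u ≤ Real.exp (Real.log (1 + e / κ) + κ * u) := by
  have h0 : 0 < 1 + e / κ := by positivity
  rw [Real.exp_add, Real.exp_log h0]
  have h1 : 1 + κ * u ≤ Real.exp (κ * u) := by linarith [Real.add_one_le_exp (κ * u)]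
  calc 1 + e * u ≤ (1 + e / κ) * (1 + κ * u) := by
        have : (1 + e / κ) * (1 + κ * u) = 1 + e * u + (e / κ + κ * u) := by
          field_simp
          ring
        rw [this]
        have : 0 ≤ e / κ + κ * u := by positivity
        linarith
    _ ≤ _ := mul_le_mul_of_nonneg_left h1 h0.le

/-- lower bound of the product near the real line -/
theorem prod_near {K : Set ℝ} {P : ℝ → ℝ} (D : ThinData K P) {η : ℝ} (hη : 0 < η) :
    ∃ B : ℝ, 0 < B ∧ ∃ n0 : ℕ, ∀ n : ℕ, n0 ≤ n → ∀ z : ℂ, z.im < 0 → -z.im ≤ 1 →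
      Real.exp (-(B + η / -z.im)) ≤
        ∏ i ∈ Finset.range (2 ^ n), ‖mult (D.x i) ((1 / 2 : ℝ) ^ n) (D.e i) z‖ := by
  -- the level `N`
  obtain ⟨N, hN⟩ : ∃ N : ℕ, (1 / 2 : ℝ) ^ N < η / 4 :=
    exists_pow_lt_of_lt_one (by positivity) (by norm_num)
  obtain ⟨ρ, hρ, hsep⟩ := D.sep N
  -- the tail of `e`
  have htail : Tendsto (fun m : ℕ => ∑' k : ℕ, D.e (k + m)) atTop (𝓝 0) :=
    tendsto_sum_nat_add D.e
  obtain ⟨I0, hI0⟩ : ∃ I0 : ℕ, ∑' k : ℕ, D.e (k + I0) < η / 8 :=
    ((htail.eventually (gt_mem_nhds (by positivity : (0 : ℝ) < η / 8))).exists)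
  set κ : ℝ := η / (8 * ((I0 : ℝ) + 1)) with hκdef
  have hκ : 0 < κ := by positivity
  set L : ℝ := Real.log (1 + 2 / κ) with hLdef
  have hL : 0 ≤ L := Real.log_nonneg (by
    have : 0 ≤ 2 / κ := by positivity
    linarith)
  refine ⟨1 / ρ ^ 2 + 2 * (I0 : ℝ) * L, by positivity, N, ?_⟩
  intro n hn z hz hz1
  set y : ℝ := -z.im with hy
  have hy0 : 0 < y := by rw [hy]; linarith
  have hei : ∀ i, 0 < D.e i := D.e_pos
  have he2 : ∀ i, D.e i ≤ 2 := fun i =>
    (D.e_sum.le_tsum i (fun j _ => (hei j).le)).trans D.e_le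
  -- exponents
  let b : ℕ → ℝ := fun i => (if i < I0 then 2 * (L + κ / y) else 2 * D.e i / y) +
    (1 / 2 : ℝ) ^ n * (y / (z.im ^ 2 + (z.re - D.x i) ^ 2))
  have h1 : ∀ i ∈ Finset.range (2 ^ n), Real.exp (-b i) ≤
      ‖mult (D.x i) ((1 / 2 : ℝ) ^ n) (D.e i) z‖ := by
    intro i _
    have hr : 0 ≤ (ww (D.x i) z).re := by rw [ww_re]; linarith
    have hw : y ≤ ‖ww (D.x i) z‖ := by
      rw [hy, ← ww_re (D.x i) z]
      exact Complex.re_le_norm _
    have a1 := factor_ge (hei i) hy0 hw hr
    have a2 : Real.exp (-(if i < I0 then 2 * (L + κ / y) else 2 * D.e i / y)) ≤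
        ‖ww (D.x i) z / ((D.e i : ℂ) + ww (D.x i) z)‖ ^ 2 := by
      have a3 : Real.exp (-((if i < I0 then 2 * (L + κ / y) else 2 * D.e i / y) / 2)) ≤
          ‖ww (D.x i) z / ((D.e i : ℂ) + ww (D.x i) z)‖ := by
        split_ifs with hi
        · refine le_trans ?_ a1
          rw [Real.exp_neg, ← one_div]
          apply one_div_le_one_div_of_le (by have := hei i; positivity)
          have a4 := lin_le_exp (e := 2) (κ := κ) (u := 1 / y) (by norm_num) hκ (by positivity)
          have a5 : D.e i / y ≤ 2 * (1 / y) := by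
            rw [div_eq_mul_one_div]
            exact mul_le_mul_of_nonneg_right (he2 i) (by positivity)
          have a6 : 2 * (L + κ / y) / 2 = L + κ * (1 / y) := by ring
          rw [a6]
          linarith
        · refine le_trans ?_ a1
          have a7 : 2 * D.e i / y / 2 = D.e i / y := by ring
          rw [a7]
          exact one_div_ge_exp (by have := hei i; positivity)
      have a8 := pow_le_pow_left₀ (Real.exp_pos _).le a3 2
      rw [← Real.exp_nat_mul] at a8
      refine le_trans (le_of_eq ?_) a8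
      congr 1
      push_cast
      ring
    rw [mult_eq, norm_mul, norm_pow, norm_exp_ww]
    have e1 : Real.exp (-b i) = Real.exp (-(if i < I0 then 2 * (L + κ / y) else 2 * D.e i / y)) *
        Real.exp (-((1 / 2 : ℝ) ^ n * (y / (z.im ^ 2 + (z.re - D.x i) ^ 2)))) := by
      rw [← Real.exp_add]
      congr 1
      ring
    rw [e1]
    exact mul_le_mul_of_nonneg_right a2 (Real.exp_pos _).le
  refine le_trans ?_ (prod_ge h1)
  apply Real.exp_le_exp.mpr
  apply neg_le_neg
  -- sum of the exponents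
  have hs1 : ∑ i ∈ Finset.range (2 ^ n), (if i < I0 then 2 * (L + κ / y) else 2 * D.e i / y) ≤
      2 * (I0 : ℝ) * L + η / 2 / y := by
    rw [Finset.sum_ite]
    have c1 : ∑ i ∈ (Finset.range (2 ^ n)).filter (fun i => i < I0), 2 * (L + κ / y) ≤
        (I0 : ℝ) * (2 * (L + κ / y)) := by
      rw [Finset.sum_const, nsmul_eq_mul]
      apply mul_le_mul_of_nonneg_right _ (by positivity)
      have : ((Finset.range (2 ^ n)).filter (fun i => i < I0)).card ≤ (Finset.range I0).card := by
        apply Finset.card_le_card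
        intro i hi
        rw [Finset.mem_filter] at hi
        exact Finset.mem_range.mpr hi.2
      rw [Finset.card_range] at this
      exact_mod_cast this
    have c2 : ∑ i ∈ (Finset.range (2 ^ n)).filter (fun i => ¬ i < I0), 2 * D.e i / y ≤
        2 / y * (η / 8) := by
      have c3 : ∑ i ∈ (Finset.range (2 ^ n)).filter (fun i => ¬ i < I0), D.e i ≤
          ∑' k : ℕ, D.e (k + I0) := by
        have c4 : ∑ i ∈ (Finset.range (2 ^ n)).filter (fun i => ¬ i < I0), D.e i =
            ∑ k ∈ ((Finset.range (2 ^ n)).filter (fun i => ¬ i < I0)).image (fun i => i - I0),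
              D.e (k + I0) := by
          rw [Finset.sum_image]
          · apply Finset.sum_congr rfl
            intro i hi
            rw [Finset.mem_filter] at hi
            congr 1
            omega
          · intro i hi j hj hij
            rw [Finset.mem_coe, Finset.mem_filter] at hi hj
            simp only at hij
            omega
        rw [c4]
        exact ((summable_nat_add_iff I0).mpr D.e_sum).sum_le_tsum _ (fun i _ => (hei _).le)
      calc ∑ i ∈ (Finset.range (2 ^ n)).filter (fun i => ¬ i < I0), 2 * D.e i / y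
          = 2 / y * ∑ i ∈ (Finset.range (2 ^ n)).filter (fun i => ¬ i < I0), D.e i := by
            rw [Finset.mul_sum]
            apply Finset.sum_congr rfl
            intro i _
            ring
        _ ≤ 2 / y * (η / 8) := mul_le_mul_of_nonneg_left (c3.trans hI0.le) (by positivity)
    have c5 : (I0 : ℝ) * (2 * (L + κ / y)) ≤ 2 * (I0 : ℝ) * L + 2 / y * (η / 8) := by
      have c6 : (I0 : ℝ) * κ ≤ η / 8 := by
        rw [hκdef, ← mul_div_assoc, div_le_div_iff₀ (by positivity) (by norm_num)]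
        nlinarith
      have c7 : (I0 : ℝ) * (2 * (L + κ / y)) = 2 * (I0 : ℝ) * L + 2 / y * ((I0 : ℝ) * κ) := by
        ring
      rw [c7]
      have := mul_le_mul_of_nonneg_left c6 (by positivity : 0 ≤ 2 / y)
      linarith
    have c8 : 2 / y * (η / 8) + 2 / y * (η / 8) = η / 2 / y := by
      ring
    linarith
  have hs2 : ∑ i ∈ Finset.range (2 ^ n),
      (1 / 2 : ℝ) ^ n * (y / (z.im ^ 2 + (z.re - D.x i) ^ 2)) ≤ 1 / ρ ^ 2 + η / 4 / y := by
    rw [← Finset.mul_sum]
    have d1 : ∀ i ∈ Finset.range (2 ^ n), y / (z.im ^ 2 + (z.re - D.x i) ^ 2) ≤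
        1 / ρ ^ 2 + (if |D.x i - z.re| < ρ then 1 / y else 0) := by
      intro i _
      have hz2 : z.im ^ 2 = y ^ 2 := by rw [hy]; ring
      split_ifs with hi
      · have : y / (z.im ^ 2 + (z.re - D.x i) ^ 2) ≤ 1 / y := by
          rw [hz2, div_le_div_iff₀ (by positivity) hy0]
          nlinarith [sq_nonneg (z.re - D.x i)]
        have : 0 ≤ 1 / ρ ^ 2 := by positivity
        linarith
      · push Not at hi
        have : y / (z.im ^ 2 + (z.re - D.x i) ^ 2) ≤ 1 / ρ ^ 2 := by
          have h3 : ρ ^ 2 ≤ (z.re - D.x i) ^ 2 := by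
            rw [← sq_abs (z.re - D.x i), abs_sub_comm]
            exact pow_le_pow_left₀ hρ.le hi 2
          rw [hz2, div_le_div_iff₀ (by positivity) (by positivity)]
          nlinarith [sq_nonneg y]
        linarith
    have d2 : ∑ i ∈ Finset.range (2 ^ n), y / (z.im ^ 2 + (z.re - D.x i) ^ 2) ≤
        (2 : ℝ) ^ n * (1 / ρ ^ 2) + 2 ^ (n - N) * (1 / y) := by
      refine (Finset.sum_le_sum d1).trans ?_
      rw [Finset.sum_add_distrib, Finset.sum_const, Finset.card_range, nsmul_eq_mul,
        ← Finset.sum_filter, Finset.sum_const, nsmul_eq_mul]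
      have h4 : ((((Finset.range (2 ^ n)).filter (fun i => |D.x i - z.re| < ρ)).card : ℕ) : ℝ) ≤
          2 ^ (n - N) := by
        exact_mod_cast hsep n hn z.re
      have h5 := mul_le_mul_of_nonneg_right h4 (by positivity : 0 ≤ 1 / y)
      push_cast
      linarith
    have d3 := mul_le_mul_of_nonneg_left d2 (by positivity : 0 ≤ (1 / 2 : ℝ) ^ n)
    refine d3.trans ?_
    have d4 : (1 / 2 : ℝ) ^ n * ((2 : ℝ) ^ n * (1 / ρ ^ 2) + 2 ^ (n - N) * (1 / y)) =
        1 / ρ ^ 2 + (1 / 2 : ℝ) ^ N * (1 / y) := by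
      have e2 : (1 / 2 : ℝ) ^ n * (2 : ℝ) ^ n = 1 := by rw [mul_comm]; exact two_pow_half n
      have e3 : (1 / 2 : ℝ) ^ n * (2 : ℝ) ^ (n - N) = (1 / 2 : ℝ) ^ N := by
        obtain ⟨k, rfl⟩ := Nat.exists_eq_add_of_le hn
        rw [Nat.add_sub_cancel_left, pow_add, mul_assoc, mul_comm ((1 / 2 : ℝ) ^ k), two_pow_half,
          mul_one]
      calc _ = ((1 / 2 : ℝ) ^ n * (2 : ℝ) ^ n) * (1 / ρ ^ 2) +
            ((1 / 2 : ℝ) ^ n * (2 : ℝ) ^ (n - N)) * (1 / y) := by ring
        _ = _ := by rw [e2, e3, one_mul]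
    rw [d4]
    have d5 : (1 / 2 : ℝ) ^ N * (1 / y) ≤ η / 4 / y := by
      rw [div_eq_mul_one_div (η / 4) y]
      exact mul_le_mul_of_nonneg_right hN.le (by positivity)
    linarith
  calc ∑ i ∈ Finset.range (2 ^ n), b i
      = ∑ i ∈ Finset.range (2 ^ n), (if i < I0 then 2 * (L + κ / y) else 2 * D.e i / y) +
        ∑ i ∈ Finset.range (2 ^ n), (1 / 2 : ℝ) ^ n * (y / (z.im ^ 2 + (z.re - D.x i) ^ 2)) :=
        Finset.sum_add_distrib
    _ ≤ 1 / ρ ^ 2 + 2 * (I0 : ℝ) * L + η / y := by
        have e4 : η / 2 / y + η / 4 / y ≤ η / y := by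
          have : η / 2 / y + η / 4 / y = (3 / 4) * (η / y) := by ring
          rw [this]
          have : 0 ≤ η / y := by positivity
          linarith
        linarith

theorem lowb : LowbStmt := by
  intro K P D
  constructor
  · intro d hd
    refine ⟨Real.exp (-(5 / d)), Real.exp_pos _, ?_⟩
    intro z hz hx
    refine ge_of_tendsto (chi_lim D z) ?_
    filter_upwards with n
    rw [chi_fn_norm D n z hz]
    · exact prod_far D n z hz hd hx
    · intro i _ h
      have := hx i
      rw [h, sub_self, norm_zero] at this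
      linarith
  · intro η hη
    obtain ⟨B, hB, n0, h⟩ := prod_near D hη
    refine ⟨Real.exp (-(B + 5)), Real.exp_pos _, ?_⟩
    intro z hz
    have hy : |z.im| = -z.im := abs_of_neg hz
    have hne : ∀ i : ℕ, z ≠ (D.x i : ℂ) := by
      intro i h
      rw [h] at hz
      simp at hz
    refine ge_of_tendsto (chi_lim D z) ?_
    filter_upwards [eventually_ge_atTop n0] with n hn
    rw [chi_fn_norm D n z hz.le (fun i _ => hne i), hy, ← Real.exp_add]
    by_cases h1 : -z.im ≤ 1
    · refine le_trans ?_ (h n hn z hz h1)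
      apply Real.exp_le_exp.mpr
      linarith
    · push Not at h1
      refine le_trans ?_ (prod_far D n z hz.le one_pos ?_)
      · apply Real.exp_le_exp.mpr
        have : 0 ≤ η / -z.im := div_nonneg hη.le (by linarith)
        linarith
      · intro i
        rw [← ww_norm]
        refine le_trans ?_ (Complex.re_le_norm _)
        rw [ww_re]
        exact h1.le

end

end Pool.Agent.H78E.H98
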