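import Pool.Agent.Helper78_E.Stmts2

/-!
# MP_7d2497_an: elementary bounds for the multipliers
-/

namespace Pool.Agent.H78E.H98

open MeasureTheory Filter Topology Complex

noncomputable section

/-- the variable `w = i (z - x)` -/
def ww (x : ℝ) (z : ℂ) : ℂ := Complex.I * (z - (x : ℂ))

theorem ww_re (x : ℝ) (z : ℂ) : (ww x z).re = -z.im := by
  unfold ww
  simp

theorem ww_im (x : ℝ) (z : ℂ) : (ww x z).im = z.re - x := by
  unfold ww
  simp

theorem ww_norm (x : ℝ) (z : ℂ) : ‖ww x z‖ = ‖z - (x : ℂ)‖ := by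
  unfold ww
  simp

theorem ww_normSq (x : ℝ) (z : ℂ) : Complex.normSq (ww x z) = z.im ^ 2 + (z.re - x) ^ 2 := by
  rw [Complex.normSq_apply, ww_re, ww_im]
  ring

theorem ww_ne {x : ℝ} {z : ℂ} (h : z ≠ (x : ℂ)) : ww x z ≠ 0 := by
  unfold ww
  exact mul_ne_zero Complex.I_ne_zero (sub_ne_zero.mpr h)

/-- `Re (1/w)` -/
theorem re_inv_ww (x : ℝ) (z : ℂ) :
    ((ww x z)⁻¹).re = -z.im / (z.im ^ 2 + (z.re - x) ^ 2) := by
  rw [Complex.inv_re, ww_re, ww_normSq]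

theorem norm_exp_ww (x m : ℝ) (z : ℂ) :
    ‖Complex.exp (-((m : ℂ) / ww x z))‖ = Real.exp (-(m * (-z.im / (z.im ^ 2 + (z.re - x) ^ 2)))) := by
  rw [Complex.norm_exp]
  congr 1
  rw [Complex.neg_re, div_eq_mul_inv, Complex.re_ofReal_mul, re_inv_ww]

theorem mult_eq (x m e : ℝ) (z : ℂ) :
    mult x m e z = (ww x z / ((e : ℂ) + ww x z)) ^ 2 * Complex.exp (-((m : ℂ) / ww x z)) := rfl

theorem norm_add_le' {e : ℝ} (he : 0 < e) (w : ℂ) : ‖(e : ℂ) + w‖ ≤ e + ‖w‖ := by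
  have := norm_add_le (e : ℂ) w
  rwa [Complex.norm_real, Real.norm_of_nonneg he.le] at this

theorem add_ne {e : ℝ} (he : 0 < e) {w : ℂ} (hw : 0 ≤ w.re) : (e : ℂ) + w ≠ 0 := by
  intro h
  have := congrArg Complex.re h
  simp at this
  linarith

theorem norm_le_add {e : ℝ} (he : 0 < e) {w : ℂ} (hw : 0 ≤ w.re) : ‖w‖ ≤ ‖(e : ℂ) + w‖ := by
  rw [← sq_le_sq₀ (norm_nonneg _) (norm_nonneg _), ← Complex.normSq_eq_norm_sq,
    ← Complex.normSq_eq_norm_sq, Complex.normSq_apply, Complex.normSq_apply]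
  simp only [Complex.add_re, Complex.ofReal_re, Complex.add_im, Complex.ofReal_im]
  nlinarith

theorem factor_le_one {e : ℝ} (he : 0 < e) {w : ℂ} (hw : 0 ≤ w.re) : ‖w / ((e : ℂ) + w)‖ ≤ 1 := by
  rw [norm_div]
  exact div_le_one_of_le₀ (norm_le_add he hw) (norm_nonneg _)

/-- lower bound of the rational factor -/
theorem factor_ge {e d : ℝ} (he : 0 < e) (hd : 0 < d) {w : ℂ} (hw : d ≤ ‖w‖) (hr : 0 ≤ w.re) :
    1 / (1 + e / d) ≤ ‖w / ((e : ℂ) + w)‖ := by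
  rw [norm_div]
  have h1 : 0 < ‖w‖ := lt_of_lt_of_le hd hw
  have h2 : 0 < ‖(e : ℂ) + w‖ := norm_pos_iff.mpr (add_ne he hr)
  rw [div_le_div_iff₀ (by positivity) h2]
  have h3 := norm_add_le' he w
  have h4 : e ≤ ‖w‖ * (e / d) := by
    rw [← mul_div_assoc, le_div_iff₀ hd]
    nlinarith
  nlinarith

theorem one_div_ge_exp {u : ℝ} (hu : 0 ≤ u) : Real.exp (-u) ≤ 1 / (1 + u) := by
  rw [Real.exp_neg, ← one_div]
  apply one_div_le_one_div_of_le (by linarith)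
  linarith [Real.add_one_le_exp u]

theorem prod_ge {s : Finset ℕ} {f : ℕ → ℝ} {b : ℕ → ℝ} (h : ∀ i ∈ s, Real.exp (-b i) ≤ f i) :
    Real.exp (-∑ i ∈ s, b i) ≤ ∏ i ∈ s, f i := by
  rw [← Finset.sum_neg_distrib, Real.exp_sum]
  exact Finset.prod_le_prod (fun i _ => (Real.exp_pos _).le) h

theorem one_add_ne {z : ℂ} (hz : z.im ≤ 0) : 1 + Complex.I * z ≠ 0 := by
  intro h
  have := congrArg Complex.re h
  simp at this
  linarith

/-- the norm of the transform of the approximants -/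
theorem chi_fn_norm {K : Set ℝ} {P : ℝ → ℝ} (D : ThinData K P) (n : ℕ) (z : ℂ) (hz : z.im ≤ 0)
    (hx : ∀ i < 2 ^ n, z ≠ (D.x i : ℂ)) :
    ‖chi z (D.fn n)‖ * ‖1 + Complex.I * z‖ =
      ∏ i ∈ Finset.range (2 ^ n), ‖mult (D.x i) ((1 / 2 : ℝ) ^ n) (D.e i) z‖ := by
  rw [D.chi_fn n z hz hx, chi_rr hz, norm_mul, norm_prod, mul_assoc, ← norm_mul,
    one_div_mul_cancel (one_add_ne hz)]
  simp

theorem chi_lim {K : Set ℝ} {P : ℝ → ℝ} (D : ThinData K P) (z : ℂ) :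
    Tendsto (fun n => ‖chi z (D.fn n)‖ * ‖1 + Complex.I * z‖) atTop
      (𝓝 (‖chi z D.f‖ * ‖1 + Complex.I * z‖)) :=
  ((((chi z).continuous.tendsto D.f).comp D.lim).norm).mul_const _

theorem two_pow_half (n : ℕ) : ((2 : ℝ) ^ n) * (1 / 2 : ℝ) ^ n = 1 := by
  rw [← mul_pow]
  norm_num

/-- lower bound of the product far from the points -/
theorem prod_far {K : Set ℝ} {P : ℝ → ℝ} (D : ThinData K P) (n : ℕ) (z : ℂ) (hz : z.im ≤ 0)
    {d : ℝ} (hd : 0 < d) (hx : ∀ i, d ≤ ‖z - (D.x i : ℂ)‖) :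
    Real.exp (-(5 / d)) ≤
      ∏ i ∈ Finset.range (2 ^ n), ‖mult (D.x i) ((1 / 2 : ℝ) ^ n) (D.e i) z‖ := by
  have h1 : ∀ i ∈ Finset.range (2 ^ n), Real.exp (-(2 * D.e i / d + (1 / 2 : ℝ) ^ n / d)) ≤
      ‖mult (D.x i) ((1 / 2 : ℝ) ^ n) (D.e i) z‖ := by
    intro i _
    have hw : d ≤ ‖ww (D.x i) z‖ := by rw [ww_norm]; exact hx i
    have hr : 0 ≤ (ww (D.x i) z).re := by rw [ww_re]; linarith
    have hei := D.e_pos i
    have a1 := factor_ge hei hd hw hr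
    have a2 : Real.exp (-(D.e i / d)) ≤ ‖ww (D.x i) z / ((D.e i : ℂ) + ww (D.x i) z)‖ :=
      (one_div_ge_exp (by positivity)).trans a1
    have a3 : Real.exp (-((1 / 2 : ℝ) ^ n / d)) ≤
        ‖Complex.exp (-((((1 / 2 : ℝ) ^ n : ℝ) : ℂ) / ww (D.x i) z))‖ := by
      rw [Complex.norm_exp]
      apply Real.exp_le_exp.mpr
      rw [Complex.neg_re]
      apply neg_le_neg
      refine (Complex.re_le_norm _).trans ?_
      rw [norm_div, Complex.norm_real, Real.norm_of_nonneg (by positivity)]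
      exact div_le_div_of_nonneg_left (by positivity) hd hw
    rw [mult_eq, norm_mul, norm_pow]
    have e1 : Real.exp (-(2 * D.e i / d + (1 / 2 : ℝ) ^ n / d)) =
        (Real.exp (-(D.e i / d))) ^ 2 * Real.exp (-((1 / 2 : ℝ) ^ n / d)) := by
      rw [← Real.exp_nat_mul, ← Real.exp_add]
      congr 1
      push_cast
      ring
    rw [e1]
    exact mul_le_mul (pow_le_pow_left₀ (Real.exp_pos _).le a2 2) a3 (Real.exp_pos _).le
      (by positivity)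
  refine le_trans ?_ (prod_ge h1)
  apply Real.exp_le_exp.mpr
  apply neg_le_neg
  rw [Finset.sum_add_distrib, Finset.sum_const, Finset.card_range, nsmul_eq_mul]
  have h2 : ∑ i ∈ Finset.range (2 ^ n), 2 * D.e i / d = 2 / d * ∑ i ∈ Finset.range (2 ^ n), D.e i := by
    rw [Finset.mul_sum]
    apply Finset.sum_congr rfl
    intro i _
    ring
  have h3 : ∑ i ∈ Finset.range (2 ^ n), D.e i ≤ 2 :=
    (D.e_sum.sum_le_tsum _ (fun i _ => (D.e_pos i).le)).trans D.e_le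
  have h4 : ((2 ^ n : ℕ) : ℝ) * ((1 / 2 : ℝ) ^ n / d) = 1 / d := by
    push_cast
    rw [← mul_div_assoc, two_pow_half]
  rw [h2, h4]
  have h5 : 2 / d * ∑ i ∈ Finset.range (2 ^ n), D.e i ≤ 2 / d * 2 :=
    mul_le_mul_of_nonneg_left h3 (by positivity)
  calc 2 / d * ∑ i ∈ Finset.range (2 ^ n), D.e i + 1 / d ≤ 2 / d * 2 + 1 / d := by linarith
    _ = 5 / d := by ring

end

end Pool.Agent.H78E.H98
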