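import Pool.Agent.Helper98_E.Basic

/-!
# MP_7d2497_an: module STAR
-/

namespace Pool.Agent.H78E.H98

open MeasureTheory Filter Topology Complex

noncomputable section

/-- finite combinations of translations -/
structure Comb (f : Y) (j : Y) where
  A : Y →L[ℂ] Y
  p : ℂ → ℂ
  C : ℝ
  eq : j = A f
  chi_A : ∀ z : ℂ, z.im ≤ 0 → ∀ g : Y, chi z (A g) = p z * chi z g
  diff : Differentiable ℂ p
  bdd : ∀ z : ℂ, z.im ≤ 0 → ‖p z‖ ≤ C

theorem comb_of_mem {f j : Y} (hj : j ∈ Submodule.span ℂ {g : Y | ∃ s : ℝ, 0 ≤ s ∧ g = YT s f}) :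
    Nonempty (Comb f j) := by
  induction hj using Submodule.span_induction with
  | mem g hg =>
    obtain ⟨s, hs, rfl⟩ := hg
    refine ⟨{ A := YT s, p := fun z => Complex.exp (-(Complex.I * (s : ℂ) * z)), C := 1, eq := rfl,
              chi_A := fun z hz g => chi_YT hz hs g, diff := by fun_prop, bdd := ?_ }⟩
    intro z hz
    rw [Complex.norm_exp, Real.exp_le_one_iff]
    simp
    nlinarith
  | zero =>
    exact ⟨{ A := 0, p := fun _ => 0, C := 0, eq := by simp, chi_A := by intro z _ g; simp,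
             diff := by fun_prop, bdd := by intro z _; simp }⟩
  | add a b _ _ ha hb =>
    obtain ⟨u⟩ := ha
    obtain ⟨v⟩ := hb
    refine ⟨{ A := u.A + v.A, p := fun z => u.p z + v.p z, C := u.C + v.C, eq := ?_, chi_A := ?_,
              diff := u.diff.add v.diff, bdd := ?_ }⟩
    · rw [add_apply, ← u.eq, ← v.eq]
    · intro z hz g
      rw [add_apply, map_add, u.chi_A z hz, v.chi_A z hz]
      ring
    · intro z hz
      exact (norm_add_le _ _).trans (add_le_add (u.bdd z hz) (v.bdd z hz))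
  | smul c a _ ha =>
    obtain ⟨u⟩ := ha
    refine ⟨{ A := c • u.A, p := fun z => c * u.p z, C := ‖c‖ * u.C, eq := ?_, chi_A := ?_,
              diff := u.diff.const_mul c, bdd := ?_ }⟩
    · rw [smul_apply, ← u.eq]
    · intro z hz g
      rw [smul_apply, map_smul, u.chi_A z hz, smul_eq_mul]
      ring
    · intro z hz
      rw [norm_mul]
      exact mul_le_mul_of_nonneg_left (u.bdd z hz) (norm_nonneg _)

/-- the rational factor as a function of `w` -/
def rat (x e : ℝ) (w : ℂ) : ℂ := (w - Complex.I * (x : ℂ)) / ((e : ℂ) + (w - Complex.I * (x : ℂ)))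

theorem rat_ww (x e : ℝ) (z : ℂ) : rat x e (Complex.I * z) = ww x z / ((e : ℂ) + ww x z) := by
  unfold rat ww
  rw [mul_sub]

theorem rat_le_one {x e : ℝ} (he : 0 < e) {w : ℂ} (hw : 0 ≤ w.re) : ‖rat x e w‖ ≤ 1 := by
  unfold rat
  apply factor_le_one he
  simp
  exact hw

theorem rat_diff {x e : ℝ} (he : 0 < e) {w : ℂ} (hw : 0 ≤ w.re) : DifferentiableAt ℂ (rat x e) w := by
  unfold rat
  apply DifferentiableAt.div (by fun_prop) (by fun_prop)
  apply add_ne he
  simp
  exact hw

/-- the bounded analytic function in the right half-plane -/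
def hh (p : ℂ → ℂ) (x e : ℕ → ℝ) (m : ℕ) (w : ℂ) : ℂ :=
  p (-(Complex.I * w)) * (∏ i ∈ Finset.range m, rat (x i) (e i) w ^ 2) / (1 + w)

theorem I_neg_I (z : ℂ) : -(Complex.I * (Complex.I * z)) = z := by
  rw [← mul_assoc, Complex.I_mul_I]
  ring

theorem hh_bound {p : ℂ → ℂ} {x e : ℕ → ℝ} (he : ∀ i, 0 < e i) (hp : Differentiable ℂ p) {C : ℝ}
    (hC : ∀ z : ℂ, z.im ≤ 0 → ‖p z‖ ≤ C) (m : ℕ) {M : ℝ}
    (hM : ∀ t : ℝ, ‖hh p x e m ((t : ℂ) * Complex.I)‖ ≤ M) {w : ℂ} (hw : 0 ≤ w.re) :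
    ‖hh p x e m w‖ ≤ M := by
  have hC0 : 0 ≤ C := (norm_nonneg _).trans (hC 0 (by simp))
  have hb : ∀ w : ℂ, 0 ≤ w.re → ‖hh p x e m w‖ ≤ C := by
    intro w hw
    unfold hh
    have h1 : 1 ≤ ‖1 + w‖ := by
      have : (1 + w).re ≤ ‖1 + w‖ := Complex.re_le_norm _
      simp at this
      linarith
    rw [norm_div, norm_mul, norm_prod]
    have h2 : ∏ i ∈ Finset.range m, ‖rat (x i) (e i) w ^ 2‖ ≤ 1 := by
      apply Finset.prod_le_one
      · intro i _
        positivity
      · intro i _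
        rw [norm_pow]
        exact pow_le_one₀ (norm_nonneg _) (rat_le_one (he i) hw)
    have h3 : ‖p (-(Complex.I * w))‖ ≤ C := by
      apply hC
      simp
      exact hw
    have h4 : 0 ≤ ∏ i ∈ Finset.range m, ‖rat (x i) (e i) w ^ 2‖ :=
      Finset.prod_nonneg (fun i _ => norm_nonneg _)
    have h5 : ‖p (-(Complex.I * w))‖ * ∏ i ∈ Finset.range m, ‖rat (x i) (e i) w ^ 2‖ ≤ C * 1 :=
      mul_le_mul h3 h2 h4 hC0
    rw [mul_one] at h5
    rw [div_le_iff₀ (by linarith)]
    nlinarith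
  have hd : ∀ w : ℂ, 0 ≤ w.re → DifferentiableAt ℂ (hh p x e m) w := by
    intro w hw
    unfold hh
    apply DifferentiableAt.div
    · apply DifferentiableAt.mul
      · exact (hp _).comp w (by fun_prop)
      · apply DifferentiableAt.fun_finsetProd
        intro i _
        exact (rat_diff (he i) hw).pow 2
    · fun_prop
    · intro h
      have := congrArg Complex.re h
      simp at this
      linarith
  have hcl : closure {z : ℂ | 0 < z.re} = {z : ℂ | 0 ≤ z.re} := Complex.closure_setOfPred_lt_re 0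
  have hDC : DiffContOnCl ℂ (hh p x e m) {z : ℂ | 0 < z.re} := by
    apply DifferentiableOn.diffContOnCl
    rw [hcl]
    intro z hz
    exact (hd z hz).differentiableWithinAt
  refine PhragmenLindelof.right_half_plane_of_bounded_on_real hDC ?_ ?_ hM hw
  · refine ⟨0, by norm_num, 0, ?_⟩
    rw [Asymptotics.isBigO_iff]
    refine ⟨C, ?_⟩
    rw [Filter.eventually_inf_principal]
    filter_upwards with z hz
    simp only [Real.exp_zero, zero_mul, norm_one, mul_one]
    exact hb z (le_of_lt hz)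
  · refine ⟨C, ?_⟩
    rw [Filter.eventually_map]
    filter_upwards [eventually_ge_atTop (0 : ℝ)] with t ht
    exact hb _ (by simpa using ht)

theorem star_norm {f : Y} {j : Y} (c : Comb f j) {x e : ℕ → ℝ} (he : ∀ i, 0 < e i) (m : ℕ) (μ : ℝ)
    (g : Y) (hg : ∀ z : ℂ, z.im ≤ 0 → (∀ i < m, z ≠ (x i : ℂ)) →
      chi z g = (∏ i ∈ Finset.range m, mult (x i) μ (e i) z) * chi z rr) (z : ℂ) (hz : z.im < 0) :
    ‖chi z (c.A g)‖ ≤ ‖c.A g‖ * ∏ i ∈ Finset.range m,
      Real.exp (-(μ * (-z.im / (z.im ^ 2 + (z.re - x i) ^ 2)))) := by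
  have key : ∀ z : ℂ, z.im ≤ 0 → (∀ i < m, z ≠ (x i : ℂ)) →
      ‖chi z (c.A g)‖ = ‖hh c.p x e m (Complex.I * z)‖ * ∏ i ∈ Finset.range m,
        Real.exp (-(μ * (-z.im / (z.im ^ 2 + (z.re - x i) ^ 2)))) := by
    intro z hz hx
    rw [c.chi_A z hz, hg z hz hx, chi_rr hz]
    unfold hh
    rw [I_neg_I]
    have h1 : ∏ i ∈ Finset.range m, mult (x i) μ (e i) z =
        (∏ i ∈ Finset.range m, rat (x i) (e i) (Complex.I * z) ^ 2) *
          ∏ i ∈ Finset.range m, Complex.exp (-((μ : ℂ) / ww (x i) z)) := by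
      rw [← Finset.prod_mul_distrib]
      apply Finset.prod_congr rfl
      intro i _
      rw [mult_eq, rat_ww]
    rw [h1]
    have h2 : ∏ i ∈ Finset.range m, Real.exp (-(μ * (-z.im / (z.im ^ 2 + (z.re - x i) ^ 2)))) =
        ‖∏ i ∈ Finset.range m, Complex.exp (-((μ : ℂ) / ww (x i) z))‖ := by
      rw [norm_prod]
      apply Finset.prod_congr rfl
      intro i _
      rw [norm_exp_ww]
    rw [h2, ← norm_mul]
    congr 1
    ring
  have hz' : ∀ i < m, z ≠ (x i : ℂ) := by
    intro i _ h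
    rw [h] at hz
    simp at hz
  rw [key z hz.le hz']
  apply mul_le_mul_of_nonneg_right _ (Finset.prod_nonneg fun i _ => (Real.exp_pos _).le)
  apply hh_bound he c.diff c.bdd m
  · intro t
    -- the boundary
    by_cases ht : ∃ i < m, t = x i
    · obtain ⟨i, hi, rfl⟩ := ht
      have h0 : hh c.p x e m ((x i : ℂ) * Complex.I) = 0 := by
        unfold hh
        have : ∏ k ∈ Finset.range m, rat (x k) (e k) ((x i : ℂ) * Complex.I) ^ 2 = 0 := by
          apply Finset.prod_eq_zero (Finset.mem_range.mpr hi)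
          have : rat (x i) (e i) ((x i : ℂ) * Complex.I) = 0 := by
            unfold rat
            rw [mul_comm, sub_self, zero_div]
          rw [this]
          norm_num
        rw [this]
        simp
      rw [h0, norm_zero]
      exact norm_nonneg _
    · push Not at ht
      have h1 := key (t : ℂ) (by simp) (by
        intro i hi h
        exact ht i hi (by exact_mod_cast h))
      have h2 : ∏ i ∈ Finset.range m, Real.exp (-(μ * (-(t : ℂ).im /
          ((t : ℂ).im ^ 2 + ((t : ℂ).re - x i) ^ 2)))) = 1 := by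
        apply Finset.prod_eq_one
        intro i _
        simp
      rw [h2, mul_one] at h1
      rw [mul_comm (t : ℂ) Complex.I, ← h1]
      have h3 := (chi (t : ℂ)).le_opNorm (c.A g)
      refine h3.trans ?_
      have h4 : ‖chi (t : ℂ)‖ ≤ 1 := chi_norm (by simp)
      calc ‖chi (t : ℂ)‖ * ‖c.A g‖ ≤ 1 * ‖c.A g‖ := mul_le_mul_of_nonneg_right h4 (norm_nonneg _)
        _ = ‖c.A g‖ := one_mul _
  · simp
    exact hz.le

theorem star : StarStmt := by
  intro K P D j hj N
  set z : ℂ := (D.x 0 : ℂ) - Complex.I * (D.y N : ℂ) with hz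
  have hzi : z.im = -D.y N := by rw [hz]; simp
  have hzr : z.re = D.x 0 := by rw [hz]; simp
  have hy := D.y_pos N
  set c : ℝ := Real.exp (-((1 / 2 : ℝ) ^ N / (2 * D.y N))) with hc
  -- closedness
  have hcl : IsClosed {j : Y | ‖chi z j‖ ≤ ‖j‖ * c} :=
    isClosed_le ((chi z).continuous.norm) (continuous_norm.mul continuous_const)
  have hsub : (Submodule.span ℂ {g : Y | ∃ s : ℝ, 0 ≤ s ∧ g = YT s D.f} : Set Y) ⊆
      {j : Y | ‖chi z j‖ ≤ ‖j‖ * c} := by
    intro j hj
    obtain ⟨u⟩ := comb_of_mem hj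
    have hlim : Tendsto (fun n => u.A (D.fn n)) atTop (𝓝 j) := by
      have hq := (u.A.continuous.tendsto D.f).comp D.lim
      have hA : u.A D.f = j := u.eq.symm
      rw [hA] at hq
      exact hq
    have h1 : Tendsto (fun n => ‖chi z (u.A (D.fn n))‖) atTop (𝓝 ‖chi z j‖) :=
      (((chi z).continuous.tendsto j).comp hlim).norm
    have h2 : Tendsto (fun n => ‖u.A (D.fn n)‖ * c) atTop (𝓝 (‖j‖ * c)) :=
      hlim.norm.mul_const c
    refine le_of_tendsto_of_tendsto h1 h2 ?_
    filter_upwards [eventually_ge_atTop N] with n hn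
    refine (star_norm u D.e_pos (2 ^ n) ((1 / 2 : ℝ) ^ n) (D.fn n) (D.chi_fn n) z
      (by rw [hzi]; linarith)).trans ?_
    apply mul_le_mul_of_nonneg_left _ (norm_nonneg _)
    rw [← Real.exp_sum, hc]
    apply Real.exp_le_exp.mpr
    rw [Finset.sum_neg_distrib]
    apply neg_le_neg
    rw [← Finset.mul_sum, hzi, hzr, neg_neg]
    have h3 : (2 : ℝ) ^ (n - N) * (1 / (2 * D.y N)) ≤
        ∑ i ∈ Finset.range (2 ^ n), D.y N / ((-D.y N) ^ 2 + (D.x 0 - D.x i) ^ 2) := by
      have h4 : ∀ i ∈ Finset.range (2 ^ n), (if |D.x i - D.x 0| ≤ D.y N then 1 / (2 * D.y N) else 0)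
          ≤ D.y N / ((-D.y N) ^ 2 + (D.x 0 - D.x i) ^ 2) := by
        intro i _
        split_ifs with hi
        · have h5 : (D.x 0 - D.x i) ^ 2 ≤ (D.y N) ^ 2 := by
            rw [← sq_abs (D.x 0 - D.x i), abs_sub_comm]
            exact pow_le_pow_left₀ (abs_nonneg _) hi 2
          have h7 : 0 < (-D.y N) ^ 2 := by
            rw [neg_sq]
            positivity
          rw [div_le_div_iff₀ (by positivity) (by positivity)]
          nlinarith
        · positivity
      refine le_trans ?_ (Finset.sum_le_sum h4)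
      rw [← Finset.sum_filter, Finset.sum_const, nsmul_eq_mul]
      apply mul_le_mul_of_nonneg_right _ (by positivity)
      exact_mod_cast D.y_card N n hn
    have h6 := mul_le_mul_of_nonneg_left h3 (by positivity : 0 ≤ (1 / 2 : ℝ) ^ n)
    refine le_trans (le_of_eq ?_) h6
    obtain ⟨k, rfl⟩ := Nat.exists_eq_add_of_le hn
    rw [Nat.add_sub_cancel_left, pow_add]
    have e1 := two_pow_half k
    calc (1 / 2 : ℝ) ^ N / (2 * D.y N) = (1 / 2 : ℝ) ^ N * 1 * (1 / (2 * D.y N)) := by ring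
      _ = (1 / 2 : ℝ) ^ N * ((2 : ℝ) ^ k * (1 / 2 : ℝ) ^ k) * (1 / (2 * D.y N)) := by rw [e1]
      _ = _ := by ring
  have : j ∈ closure (Submodule.span ℂ {g : Y | ∃ s : ℝ, 0 ≤ s ∧ g = YT s D.f} : Set Y) := by
    rw [← Submodule.topologicalClosure_coe]
    exact hj
  exact (closure_minimal hsub hcl) this

end

end Pool.Agent.H78E.H98
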